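import Mathlib

set_option autoImplicit false

/-!
# Local states for `G × K₃` (MP_b918dd_co)

The three copies of an edge of the cubic graph `G` get three colours out of five: a state is a
function `Fin 3 → Fin 5`.  `Good a μ b t`: at a vertex with the edge states `a`, `μ`, `b` and
triangle colours `t`, the three copies see all five colours.
-/

namespace Pool.Agent.W122.K3

/-- vertex condition: in copy `i` the colours `a i`, `μ i`, `b i`, `t (i+1)`, `t (i+2)` are all
five colours -/
def Good (a μ b t : Fin 3 → Fin 5) : Prop :=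
  ∀ i : Fin 3, ∀ c : Fin 5, c = a i ∨ c = μ i ∨ c = b i ∨ c = t (i + 1) ∨ c = t (i + 2)

instance (a μ b t : Fin 3 → Fin 5) : Decidable (Good a μ b t) := by unfold Good; infer_instance

/-- code of a pair of bits -/
def cd (x y : Bool) : Fin 4 := if x then (if y then 3 else 1) else (if y then 2 else 0)

/-- colour `k - 1` of the class `k` -/
def cl (k : Fin 4) : Fin 5 := match k with
  | 0 => 0
  | 1 => 0
  | 2 => 1
  | 3 => 2

/-- the third element of `{0,1,2}`, and a choice of one if the two are equal -/
def third (a b : Fin 5) : Fin 5 := match a, b with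
  | 0, 1 => 2
  | 1, 0 => 2
  | 0, 2 => 1
  | 2, 0 => 1
  | 1, 2 => 0
  | 2, 1 => 0
  | 0, 0 => 1
  | 1, 1 => 2
  | 2, 2 => 0
  | _, _ => 0

/-- the state of a matching edge with label `s` -/
def mu (s : Fin 4) : Fin 3 → Fin 5 := ![cl s, 3, 4]

/-- state of an edge of the 2-factor in the class `0`; `p` and `n` are the classes of the
preceding and the following edge, `t` is the type of the preceding edge -/
def nst (p n : Fin 4) (t : Bool) : Fin 3 → Fin 5 :=
  if t then
    (if p = n then ![third (cl p) (cl p), cl p, third (cl p) (third (cl p) (cl p))]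
      else ![third (cl p) (cl n), cl p, cl n])
  else
    (if p = n then ![third (cl p) (cl p), third (cl p) (third (cl p) (cl p)), cl p]
      else ![third (cl p) (cl n), cl n, cl p])

/-- state of an edge of the 2-factor: `p`, `c`, `n` are the classes of the preceding edge, the
edge and the following edge, `tp`, `tc` the types of the preceding edge and of the edge -/
def st (p c n : Fin 4) (tp tc : Bool) : Fin 3 → Fin 5 :=
  if c = 0 then nst p n tp
  else if p = 0 ∨ n = 0 then (if tc then ![4, 4, cl c] else ![3, cl c, 3])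
  else ![cl c, cl c, cl c]

/-- is the colour `c` absent from `a i, μ i, b i` -/
def absent (a μ b : Fin 3 → Fin 5) (i : Fin 3) (c : Fin 5) : Bool :=
  c ≠ a i && c ≠ μ i && c ≠ b i

/-- the triangle colours -/
def tri (a μ b : Fin 3 → Fin 5) (i : Fin 3) : Fin 5 :=
  if absent a μ b (i + 1) 0 && absent a μ b (i + 2) 0 then 0
  else if absent a μ b (i + 1) 1 && absent a μ b (i + 2) 1 then 1
  else if absent a μ b (i + 1) 2 && absent a μ b (i + 2) 2 then 2
  else if absent a μ b (i + 1) 3 && absent a μ b (i + 2) 3 then 3
  else 4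

/-- code of the sum -/
def xr (a b : Fin 4) : Fin 4 :=
  if a = b then 0 else if a = 0 then b else if b = 0 then a
  else if a ≠ 1 ∧ b ≠ 1 then 1 else if a ≠ 2 ∧ b ≠ 2 then 2 else 3

set_option maxRecDepth 100000 in
/-- the transition lemma -/
theorem step : ∀ (cuu cu cv cw : Fin 4) (tuu tu tv : Bool),
    cuu ≠ cu → cu ≠ cv → cv ≠ cw →
    (cu = 0 → tv = xor tuu (decide (cuu ≠ cv))) →
    (cu ≠ 0 → cv ≠ 0 → cuu = 0 → cw = 0 → tv = !tu) →
    Good (st cuu cu cv tuu tu) (mu (xr cu cv)) (st cu cv cw tu tv)
      (tri (st cuu cu cv tuu tu) (mu (xr cu cv)) (st cu cv cw tu tv)) := by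
  decide +kernel

end Pool.Agent.W122.K3
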