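import Pool.Agent.W122.K3.States
import Pool.Agent.W122.K3.Model

set_option autoImplicit false

namespace Pool.Agent.W122.K3

open Finset Pool.Agent.Helper879.ECD

section Fact

variable {V : Type} [Fintype V] [DecidableEq V]

/-- From a 2-factor model of a simple graph with states to the 1-factorization. -/
theorem factorization (G : SimpleGraph V) (π : Equiv.Perm V) (m : V → V)
    (hm : ∀ v, m (m v) = v)
    (hadj1 : ∀ v, G.Adj v (π v)) (hadj2 : ∀ v, G.Adj v (m v))
    (hcases : ∀ u w, G.Adj u w → w = π u ∨ w = π.symm u ∨ w = m u)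
    (hd1 : ∀ v, π v ≠ π.symm v) (hd2 : ∀ v, π v ≠ m v) (hd3 : ∀ v, π.symm v ≠ m v)
    (x t μ : V → Fin 3 → Fin 5) (hμ : ∀ v, μ (m v) = μ v)
    (hgood : ∀ v, Good (x (π.symm v)) (μ v) (x v) (t v)) :
      ∃ (k : ℕ) (M : Fin k → (SimpleGraph.boxProd G (⊤ : SimpleGraph (Fin 3))).Subgraph),
        (∀ i, (M i).IsPerfectMatching) ∧
        ∀ e ∈ (SimpleGraph.boxProd G (⊤ : SimpleGraph (Fin 3))).edgeSet,
          ∃! i, e ∈ (M i).edgeSet := by
  classical
  let nb : V × Fin 3 → Fin 5 → V × Fin 3 := fun p =>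
    ![(π.symm p.1, p.2), (m p.1, p.2), (π p.1, p.2), (p.1, p.2 + 2), (p.1, p.2 + 1)]
  let col : V × Fin 3 → Fin 5 → Fin 5 := fun p =>
    ![x (π.symm p.1) p.2, μ p.1 p.2, x p.1 p.2, t p.1 (p.2 + 1), t p.1 (p.2 + 2)]
  have hcsurj : ∀ p, Function.Surjective (col p) := by
    intro p c
    rcases hgood p.1 p.2 c with h | h | h | h | h
    · exact ⟨0, h.symm⟩
    · exact ⟨1, h.symm⟩
    · exact ⟨2, h.symm⟩
    · exact ⟨3, h.symm⟩
    · exact ⟨4, h.symm⟩
  have hcbij : ∀ p, Function.Bijective (col p) := fun p =>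
    ⟨Finite.injective_iff_surjective.2 (hcsurj p), hcsurj p⟩
  let ce : ∀ p, Fin 5 ≃ Fin 5 := fun p => Equiv.ofBijective (col p) (hcbij p)
  have hce : ∀ p k, ce p k = col p k := fun p k => rfl
  let P : Fin 5 → V × Fin 3 → V × Fin 3 := fun c p => nb p ((ce p).symm c)
  have hP : ∀ p k, P (col p k) p = nb p k := by
    intro p k
    show nb p ((ce p).symm (col p k)) = nb p k
    rw [← hce, Equiv.symm_apply_apply]
  have f3a : ∀ i : Fin 3, i + 2 ≠ i := by decide
  have f3b : ∀ i : Fin 3, i + 1 ≠ i := by decide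
  have f3c : ∀ i : Fin 3, i + 2 ≠ i + 1 := by decide
  have hπne : ∀ v, π v ≠ v := fun v => (hadj1 v).ne'
  have hπsne : ∀ v, π.symm v ≠ v := by
    intro v h
    apply hπne v
    conv_lhs => rw [← h]
    simp
  have hmne : ∀ v, m v ≠ v := fun v => (hadj2 v).ne'
  have hadj : ∀ p k, (SimpleGraph.boxProd G (⊤ : SimpleGraph (Fin 3))).Adj p (nb p k) := by
    intro p k
    rw [SimpleGraph.boxProd_adj]
    fin_cases k
    · left
      refine ⟨?_, rfl⟩
      have := hadj1 (π.symm p.1)
      rw [Equiv.apply_symm_apply] at this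
      exact this.symm
    · left; exact ⟨hadj2 _, rfl⟩
    · left; exact ⟨hadj1 _, rfl⟩
    · right
      refine ⟨?_, rfl⟩
      rw [SimpleGraph.top_adj]
      exact (f3a p.2).symm
    · right
      refine ⟨?_, rfl⟩
      rw [SimpleGraph.top_adj]
      exact (f3b p.2).symm
  have hinj : ∀ p, Function.Injective (nb p) := by
    rintro ⟨v, i⟩ k l h
    have a1 := hd1 v
    have a2 := hd2 v
    have a3 := hd3 v
    have a4 := hπne v
    have a5 := hπsne v
    have a6 := hmne v
    have a7 := f3a i
    have a8 := f3b i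
    have a9 := f3c i
    fin_cases k <;> fin_cases l <;>
      first
        | rfl
        | (exfalso
           have h1 := congrArg Prod.fst h
           have h2 := congrArg Prod.snd h
           first
             | exact a1 h1 | exact a1 h1.symm | exact a2 h1 | exact a2 h1.symm
             | exact a3 h1 | exact a3 h1.symm | exact a4 h1 | exact a4 h1.symm
             | exact a5 h1 | exact a5 h1.symm | exact a6 h1 | exact a6 h1.symm
             | exact a7 h2 | exact a7 h2.symm | exact a8 h2 | exact a8 h2.symm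
             | exact a9 h2 | exact a9 h2.symm)
  have hsurj : ∀ p q, (SimpleGraph.boxProd G (⊤ : SimpleGraph (Fin 3))).Adj p q →
      ∃ k, nb p k = q := by
    rintro ⟨v, i⟩ ⟨w, j⟩ h
    rw [SimpleGraph.boxProd_adj] at h
    rcases h with ⟨h, h'⟩ | ⟨h, h'⟩
    · simp only at h h'
      subst h'
      rcases hcases v w h with rfl | rfl | rfl
      · exact ⟨2, rfl⟩
      · exact ⟨0, rfl⟩
      · exact ⟨1, rfl⟩
    · simp only at h h'
      subst h'
      rw [SimpleGraph.top_adj] at h
      have h3 : j = i + 2 ∨ j = i + 1 := by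
        revert i j; decide
      rcases h3 with rfl | rfl
      · exact ⟨3, rfl⟩
      · exact ⟨4, rfl⟩
  have hback : ∀ p k, ∃ k', nb (nb p k) k' = p ∧ col (nb p k) k' = col p k := by
    rintro ⟨v, i⟩ k
    fin_cases k
    · refine ⟨2, ?_, ?_⟩
      · show (π (π.symm v), i) = (v, i)
        rw [Equiv.apply_symm_apply]
      · rfl
    · refine ⟨1, ?_, ?_⟩
      · show (m (m v), i) = (v, i)
        rw [hm]
      · show μ (m v) i = μ v i
        rw [hμ]
    · refine ⟨0, ?_, ?_⟩
      · show (π.symm (π v), i) = (v, i)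
        rw [Equiv.symm_apply_apply]
      · show x (π.symm (π v)) i = x v i
        rw [Equiv.symm_apply_apply]
    · refine ⟨4, ?_, ?_⟩
      · show (v, i + 2 + 1) = (v, i)
        have : i + 2 + 1 = i := by revert i; decide
        rw [this]
      · show t v (i + 2 + 2) = t v (i + 1)
        have : i + 2 + 2 = i + 1 := by revert i; decide
        rw [this]
    · refine ⟨3, ?_, ?_⟩
      · show (v, i + 1 + 2) = (v, i)
        have : i + 1 + 2 = i := by revert i; decide
        rw [this]
      · show t v (i + 1 + 1) = t v (i + 2)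
        have : i + 1 + 1 = i + 2 := by revert i; decide
        rw [this]
  have hinv : ∀ c p, P c (P c p) = p := by
    intro c p
    obtain ⟨k, rfl⟩ := hcsurj p c
    rw [hP]
    obtain ⟨k', h1, h2⟩ := hback p k
    rw [← h2, hP, h1]
  have huniq : ∀ p q, (SimpleGraph.boxProd G (⊤ : SimpleGraph (Fin 3))).Adj p q →
      ∃! c, P c p = q := by
    intro p q h
    obtain ⟨k, rfl⟩ := hsurj p q h
    refine ⟨col p k, hP p k, ?_⟩
    intro c hc
    obtain ⟨l, rfl⟩ := hcsurj p c
    beta_reduce at hc
    rw [hP] at hc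
    rw [hinj p hc]
  have hPadj : ∀ c p, (SimpleGraph.boxProd G (⊤ : SimpleGraph (Fin 3))).Adj p (P c p) :=
    fun c p => hadj p _
  let M : Fin 5 → (SimpleGraph.boxProd G (⊤ : SimpleGraph (Fin 3))).Subgraph := fun c =>
    { verts := Set.univ
      Adj := fun p q => P c p = q
      adj_sub := by
        rintro p q rfl
        exact hPadj c p
      edge_vert := fun _ => Set.mem_univ _
      symm := ⟨by
        rintro p q rfl
        exact hinv c p⟩ }
  refine ⟨5, M, ?_, ?_⟩
  · intro c
    rw [SimpleGraph.Subgraph.isPerfectMatching_iff]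
    intro p
    exact ⟨P c p, rfl, fun q hq => Eq.symm hq⟩
  · intro e he
    induction e with
    | _ p q =>
      rw [SimpleGraph.mem_edgeSet] at he
      obtain ⟨c, hc, hcu⟩ := huniq p q he
      refine ⟨c, ?_, ?_⟩
      · show s(p, q) ∈ (M c).edgeSet
        rw [SimpleGraph.Subgraph.mem_edgeSet]
        exact hc
      · intro d hd
        beta_reduce at hd
        rw [SimpleGraph.Subgraph.mem_edgeSet] at hd
        exact hcu d hd

end Fact

open Classical in
theorem main (V : Type) [Fintype V] (G : SimpleGraph V) [DecidableRel G.Adj]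
    (hreg : G.IsRegularOfDegree 3) (hb : ∀ e : Sym2 V, ¬ G.IsBridge e) :
      ∃ (k : ℕ) (M : Fin k → (SimpleGraph.boxProd G (⊤ : SimpleGraph (Fin 3))).Subgraph),
        (∀ i, (M i).IsPerfectMatching) ∧
        ∀ e ∈ (SimpleGraph.boxProd G (⊤ : SimpleGraph (Fin 3))).edgeSet,
          ∃! i, e ∈ (M i).edgeSet := by
  have hex : ∀ e : G.edgeSet, ∃ p : V × V, e.1 = s(p.1, p.2) := by
    rintro ⟨e, he⟩
    induction e with
    | _ x y => exact ⟨(x, y), rfl⟩
  choose p hp using hex
  let H : MGraph V G.edgeSet :=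
    { ends := fun e => e.1
      loopless := fun e => G.not_isDiag_of_mem_edgeSet e.2 }
  have hpne : ∀ e, (p e).1 ≠ (p e).2 := by
    intro e h
    apply H.loopless e
    show (e.1).IsDiag
    rw [hp, h]; exact Sym2.mk_isDiag_iff.2 rfl
  have hmem : ∀ (e : G.edgeSet) v, v ∈ e.1 ↔ v = (p e).1 ∨ v = (p e).2 := by
    intro e v; rw [hp, Sym2.mem_iff]
  have hcub : ∀ w, cn (fun e : G.edgeSet => (p e).1) (fun e => (p e).2) univ {w} = 3 := by
    intro w
    rw [← hreg w, ← G.card_incidenceFinset_eq_degree]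
    unfold cn
    apply Finset.card_bij (fun e _ => e.1)
    · intro e he
      rw [Finset.mem_filter] at he
      rw [SimpleGraph.mem_incidenceFinset]
      refine ⟨e.2, ?_⟩
      rw [hmem]
      have h := he.2
      simp only [Finset.mem_singleton] at h
      by_contra hcon
      push Not at hcon
      exact h ⟨fun h' => absurd h'.symm hcon.1, fun h' => absurd h'.symm hcon.2⟩
    · intro e _ e' _ h
      exact Subtype.ext h
    · intro e he
      rw [SimpleGraph.mem_incidenceFinset] at he
      refine ⟨⟨e, he.1⟩, ?_, rfl⟩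
      rw [Finset.mem_filter]
      refine ⟨Finset.mem_univ _, ?_⟩
      have h2 := (hmem ⟨e, he.1⟩ w).1 he.2
      have h3 := hpne ⟨e, he.1⟩
      simp only [Finset.mem_singleton]
      rcases h2 with h2 | h2
      · rw [← h2] at h3 ⊢
        intro h4
        exact h3 (h4.1 rfl).symm
      · rw [← h2] at h3 ⊢
        intro h4
        exact h3 (h4.2 rfl)
  have hbr : ∀ X : Finset V, cn (fun e : G.edgeSet => (p e).1) (fun e => (p e).2) univ X ≠ 1 := by
    intro X hX
    unfold cn at hX
    obtain ⟨e0, he0⟩ := Finset.card_eq_one.1 hX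
    have hcut : ∀ e : G.edgeSet, ¬ ((p e).1 ∈ X ↔ (p e).2 ∈ X) → e = e0 := by
      intro e he
      have : e ∈ univ.filter (fun e : G.edgeSet => ¬ ((p e).1 ∈ X ↔ (p e).2 ∈ X)) :=
        Finset.mem_filter.2 ⟨Finset.mem_univ _, he⟩
      rw [he0, Finset.mem_singleton] at this; exact this
    have he0' : ¬ ((p e0).1 ∈ X ↔ (p e0).2 ∈ X) := by
      have : e0 ∈ univ.filter (fun e : G.edgeSet => ¬ ((p e).1 ∈ X ↔ (p e).2 ∈ X)) := by
        rw [he0]; exact Finset.mem_singleton_self _
      exact (Finset.mem_filter.1 this).2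
    have hcross : ∀ c d, G.Adj c d → c ∈ X → d ∉ X → s(c, d) = e0.1 := by
      intro c d hcd hc hd
      have h1 := hcut ⟨s(c, d), hcd⟩ (by
        have h2 := hp ⟨s(c, d), hcd⟩
        rcases Sym2.eq_iff.1 h2 with ⟨h3, h4⟩ | ⟨h3, h4⟩
        · rw [← h3, ← h4]; exact fun h => hd (h.1 hc)
        · rw [← h3, ← h4]; exact fun h => hd (h.2 hc))
      rw [← h1]
    have hreach : ∀ (c d : V), (G \ SimpleGraph.fromEdgeSet {e0.1}).Reachable c d →
        (c ∈ X ↔ d ∈ X) := by
      rintro c d ⟨w⟩
      induction w with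
      | nil => rfl
      | @cons u v w h _ ih =>
        rw [← ih]
        rw [SimpleGraph.sdiff_adj, SimpleGraph.fromEdgeSet_adj] at h
        have h2 : s(u, v) ≠ e0.1 := by
          intro h3
          exact h.2 ⟨by rw [h3]; exact Set.mem_singleton _, h.1.ne⟩
        constructor
        · intro hu
          by_contra hv
          exact h2 (hcross u v h.1 hu hv)
        · intro hv
          by_contra hu
          apply h2
          rw [Sym2.eq_swap]
          exact hcross v u h.1.symm hv hu
    apply hb e0.1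
    have h5 := hp e0
    rw [h5, SimpleGraph.isBridge_iff]
    have h6 : G.Adj (p e0).1 (p e0).2 := by
      have := e0.2
      rw [h5] at this
      exact this
    intro h7
    rw [← h5] at h7
    exact he0' (hreach _ _ h7)
  obtain ⟨π, m, f, g, p₁, p₂, hmod, hnz, hm1, hm2, hB1, hB2⟩ :=
    exists_model H (fun e => (p e).1) (fun e => (p e).2) hp hcub hbr
  obtain ⟨x, t, hxt⟩ := exists_states π p₁ p₂ hnz hB1 hB2
  have hef : ∀ v, (f v).1 = s(v, π v) := hmod.ef
  have heg : ∀ v, (g v).1 = s(v, m v) := hmod.eg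
  have hfe : ∀ u v, (f u).1 = (f v).1 → u = v := fun u v h => hmod.finj (Subtype.ext h)
  have hfge : ∀ u v, (f u).1 ≠ (g v).1 := fun u v h => hmod.fg u v (Subtype.ext h)
  apply factorization G π m hmod.hm
    (fun v => by
      have := (f v).2
      rw [hef] at this
      exact this)
    (fun v => by
      have := (g v).2
      rw [heg] at this
      exact this)
    (by
      intro u w h
      rcases hmod.cover ⟨s(u, w), h⟩ with ⟨v, hv⟩ | ⟨v, hv⟩
      · have h2 := congrArg Subtype.val hv
        rw [hef] at h2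
        rcases Sym2.eq_iff.1 h2 with ⟨h3, h4⟩ | ⟨h3, h4⟩
        · left; rw [h4, h3]
        · right; left; rw [h4, h3, Equiv.symm_apply_apply]
      · have h2 := congrArg Subtype.val hv
        rw [heg] at h2
        rcases Sym2.eq_iff.1 h2 with ⟨h3, h4⟩ | ⟨h3, h4⟩
        · right; right; rw [h4, h3]
        · right; right; rw [h4, h3, hmod.hm])
    (by
      intro v h
      have h1 := hef v
      have h2 := hef (π.symm v)
      rw [Equiv.apply_symm_apply, ← h, Sym2.eq_swap, ← h1] at h2
      exact hmod.hπ v (hfe _ _ h2))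
    (by
      intro v h
      apply hfge v v
      rw [hef, heg, h])
    (by
      intro v h
      apply hfge (π.symm v) v
      rw [hef, heg, Equiv.apply_symm_apply, ← h, Sym2.eq_swap])
    x t (fun v => mu (code (p₁ v) (p₂ v)))
    (fun v => by beta_reduce; rw [hm1, hm2])
    hxt

end Pool.Agent.W122.K3
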