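import Pool.Agent.Helper879.ECD.Final
import Pool.Agent.W122.K3.Core

set_option autoImplicit false

namespace Pool.Agent.W122.K3

open Finset Pool.Agent.Helper879.ECD

variable {V : Type} [Fintype V] [DecidableEq V]

/-- a balanced function has a potential -/
lemma pot (π : Equiv.Perm V) (Y : V → F2) (hY : Bal π Y) :
    ∃ y : V → F2, ∀ v, y v + y (π.symm v) = Y v := by
  obtain ⟨y, hy, _⟩ := exists_pot π id (fun _ => rfl) (fun _ => False) (fun _ h => h) Y hY
    (fun Z _ _ h v => by
      by_contra hne
      exact h v hne)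
  exact ⟨y, hy⟩

def bl (a : F2) : Bool := decide (a = 1)

/-- code of two bits -/
def code (a b : F2) : Fin 4 := cd (bl a) (bl b)

lemma code_inj {a b c d : F2} (h : code a b = code c d) : a = c ∧ b = d := by
  revert a b c d; decide

lemma code_zero {a b : F2} : code a b = 0 ↔ a = 0 ∧ b = 0 := by
  revert a b; decide

lemma code_xr (a b c d : F2) : xr (code a b) (code c d) = code (a + c) (b + d) := by
  revert a b c d; decide

lemma exists_T (p q r : F2 × F2) : ∃ T : F2 × F2, T ≠ p ∧ T ≠ q ∧ T ≠ r := by
  revert p q r; decide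

lemma f2_ne {a b : F2} (h : a + b ≠ 0) : a ≠ b := by
  rintro rfl; exact h (f2_add_self a)

lemma f2_eq_add {a b c : F2} (h : a + b = c) : a = b + c := by
  revert a b c; decide

lemma f2_add_ne {a b : F2} (h : a ≠ b) : a + b = 1 := by
  revert a b; decide

/-- The states of the 2-factor edges. -/
theorem exists_states (π : Equiv.Perm V) (ψ₁ ψ₂ : V → F2) (hnz : ∀ v, ψ₁ v ≠ 0 ∨ ψ₂ v ≠ 0)
    (h1 : Bal π ψ₁) (h2 : Bal π ψ₂) :
    ∃ x t : V → Fin 3 → Fin 5,
      ∀ v, Good (x (π.symm v)) (mu (code (ψ₁ v) (ψ₂ v))) (x v) (t v) := by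
  classical
  obtain ⟨y₁, hy₁⟩ := pot π ψ₁ h1
  obtain ⟨y₂, hy₂⟩ := pot π ψ₂ h2
  let rep : V → V := fun v => Quotient.out (Quotient.mk (Equiv.Perm.SameCycle.setoid π) v)
  have hrep : ∀ v, π.SameCycle (rep v) v := fun v =>
    Quotient.exact (Quotient.out_eq (Quotient.mk (Equiv.Perm.SameCycle.setoid π) v))
  have hrepc : ∀ u v, π.SameCycle u v → rep u = rep v := by
    intro u v h
    have : Quotient.mk (Equiv.Perm.SameCycle.setoid π) u =
        Quotient.mk (Equiv.Perm.SameCycle.setoid π) v := Quotient.sound h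
    simp only [rep, this]
  have hreps : ∀ v, rep (π.symm v) = rep v := by
    intro v
    apply hrepc
    rw [← Equiv.Perm.sameCycle_apply_left, Equiv.apply_symm_apply]
  have hrepr : ∀ v, rep (rep v) = rep v := fun v => hrepc _ _ (hrep v)
  have hT : ∀ r : V, ∃ T : F2 × F2, T ≠ (y₁ (π.symm r), y₂ (π.symm r)) ∧
      T ≠ (y₁ r, y₂ r) ∧ T ≠ (y₁ (π r), y₂ (π r)) := fun r => exists_T _ _ _
  choose T hTp hTc hTn using hT
  let c₁ : V → F2 := fun v => y₁ v + (T (rep v)).1
  let c₂ : V → F2 := fun v => y₂ v + (T (rep v)).2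
  let c : V → Fin 4 := fun v => code (c₁ v) (c₂ v)
  have hc₁ : ∀ v, c₁ v + c₁ (π.symm v) = ψ₁ v := by
    intro v
    simp only [c₁, hreps]
    rw [← hy₁ v]
    have := f2_add_self ((T (rep v)).1)
    linear_combination this
  have hc₂ : ∀ v, c₂ v + c₂ (π.symm v) = ψ₂ v := by
    intro v
    simp only [c₂, hreps]
    rw [← hy₂ v]
    have := f2_add_self ((T (rep v)).2)
    linear_combination this
  have hxr : ∀ v, xr (c (π.symm v)) (c v) = code (ψ₁ v) (ψ₂ v) := by
    intro v
    simp only [c]
    rw [code_xr, ← hc₁ v, ← hc₂ v, add_comm (c₁ v), add_comm (c₂ v)]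
  have hcne : ∀ v, c (π.symm v) ≠ c v := by
    intro v h
    obtain ⟨e1, e2⟩ := code_inj h
    rcases hnz v with h' | h'
    · apply h'; rw [← hc₁ v, e1]; exact f2_add_self _
    · apply h'; rw [← hc₂ v, e2]; exact f2_add_self _
  have hcz : ∀ v, c v = 0 → T (rep v) = (y₁ v, y₂ v) := by
    intro v h
    obtain ⟨e1, e2⟩ := code_zero.1 h
    ext
    · show (T (rep v)).1 = y₁ v
      have := f2_eq_add e1
      rw [this, add_zero]
    · show (T (rep v)).2 = y₂ v
      have := f2_eq_add e2
      rw [this, add_zero]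
  -- at the representative there is no class 0 nearby
  have hr0 : ∀ v, v = rep v → c (π.symm v) ≠ 0 ∧ c v ≠ 0 ∧ c (π v) ≠ 0 := by
    intro v hv
    refine ⟨fun h => ?_, fun h => ?_, fun h => ?_⟩
    · have h3 := hcz _ h
      rw [hreps, ← hv] at h3
      exact hTp v h3
    · have h3 := hcz _ h
      rw [← hv] at h3
      exact hTc v h3
    · have h3 := hcz _ h
      have h4 : rep (π v) = rep v := by
        apply hrepc
        rw [Equiv.Perm.sameCycle_apply_left]
      rw [h4, ← hv] at h3
      exact hTn v h3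
  -- the increments of the types
  let D0 : V → F2 := fun v =>
    if c v = 0 then 0
    else if c (π.symm v) = 0 then (if c (π.symm (π.symm v)) ≠ c v then 1 else 0)
    else if c (π.symm (π.symm v)) = 0 ∧ c (π v) = 0 then 1 else 0
  let S : V → F2 := fun r => ∑ v ∈ univ.filter (fun v => π.SameCycle r v), D0 v
  let D : V → F2 := fun v => D0 v + if v = rep v then S v else 0
  have hD : Bal π D := by
    apply bal_of_sum
    intro r
    simp only [D]
    rw [Finset.sum_add_distrib, ← Finset.sum_filter, Finset.filter_filter]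
    have h3 : univ.filter (fun v => π.SameCycle r v ∧ v = rep v) = {rep r} := by
      ext v
      rw [Finset.mem_filter, Finset.mem_singleton]
      constructor
      · rintro ⟨_, h3, h4⟩
        rw [h4]; exact (hrepc _ _ h3).symm
      · rintro rfl
        exact ⟨Finset.mem_univ _, (hrep r).symm, (hrepr r).symm⟩
    rw [h3, Finset.sum_singleton]
    have h4 : S (rep r) = S r := by
      simp only [S]
      congr 1
      apply Finset.filter_congr
      intro v _
      exact ⟨fun h => (hrep r).symm.trans h, fun h => (hrep r).trans h⟩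
    rw [h4]
    exact f2_add_self _
  obtain ⟨τ, hτ⟩ := pot π D hD
  -- the states
  refine ⟨fun v => st (c (π.symm v)) (c v) (c (π v)) (bl (τ (π.symm v))) (bl (τ v)),
    fun v => tri (st (c (π.symm (π.symm v))) (c (π.symm v)) (c v) (bl (τ (π.symm (π.symm v))))
      (bl (τ (π.symm v)))) (mu (xr (c (π.symm v)) (c v)))
      (st (c (π.symm v)) (c v) (c (π v)) (bl (τ (π.symm v))) (bl (τ v))), ?_⟩
  intro v
  have key := step (c (π.symm (π.symm v))) (c (π.symm v)) (c v) (c (π v))
    (bl (τ (π.symm (π.symm v)))) (bl (τ (π.symm v))) (bl (τ v))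
    (hcne _) (hcne _) (by
      have := hcne (π v)
      rw [Equiv.symm_apply_apply] at this
      exact this) (by
      intro h0
      have hv : v ≠ rep v := fun h => (hr0 v h).1 h0
      have hu : π.symm v ≠ rep (π.symm v) := fun h => (hr0 _ h).2.1 h0
      have e1 := hτ v
      have e2 := hτ (π.symm v)
      have hcv : c v ≠ 0 := fun h => hcne v (by rw [h0, h])
      simp only [D, D0, if_neg hv, if_neg hu, if_pos h0, if_neg hcv, add_zero] at e1 e2
      have e3 := f2_eq_add e1
      have e4 := f2_eq_add e2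
      rw [e4, add_zero] at e3
      rw [e3]
      by_cases h : c (π.symm (π.symm v)) ≠ c v
      · rw [if_pos h, decide_eq_true h]
        generalize τ (π.symm (π.symm v)) = z
        revert z; decide
      · rw [if_neg h, decide_eq_false h]
        generalize τ (π.symm (π.symm v)) = z
        revert z; decide) (by
      intro h0 h0' huu hw
      have hv : v ≠ rep v := fun h => (hr0 v h).2.2 hw
      have e1 := hτ v
      simp only [D, D0, if_neg hv, if_neg h0, if_neg h0', add_zero] at e1
      rw [if_pos ⟨huu, hw⟩] at e1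
      rw [f2_eq_add e1]
      generalize τ (π.symm v) = z
      revert z; decide)
  have e5 : π (π.symm v) = v := Equiv.apply_symm_apply _ _
  rw [hxr] at key
  simp only [e5, hxr]
  exact key

end Pool.Agent.W122.K3
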